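import Pool.Agent.Q25.Crit885

/-!
# The number of real critical points of `Φ_{np}` is not monotone in `p`

For `n = 3 * 59 = 177` the polynomial `Φ_{5 n}'` has exactly `7` real zeros and `Φ_{7 n}'` has exactly `5`.
The upper bounds come from Descartes' rule of signs for the intervals `(0,1)`, `(1,∞)`, `(-1,0)`, `(-∞,-1)`, the lower
bounds from sign changes.
-/

namespace Pool.Agent.Results.MP_99db3a_nt.NotMonotone

open Polynomial

/-- the number of real roots of the derivative of the `m`-th cyclotomic polynomial, counted with multiplicity -/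
noncomputable def N (m : ℕ) : ℕ := Multiset.card (derivative (cyclotomic m ℝ)).roots

/-- There are a product `n` of distinct odd primes and primes `p < p'` not dividing `n` with `N_{np} > N_{np'}`:
`n = 3 * 59`, `p = 5`, `p' = 7`, where `N_{np} = 7` and `N_{np'} = 5`. -/
theorem result :
    (Nat.Prime 3 ∧ Nat.Prime 59 ∧ Nat.Prime 5 ∧ Nat.Prime 7 ∧ ¬ 5 ∣ 3 * 59 ∧ ¬ 7 ∣ 3 * 59 ∧ 5 < 7) ∧
    N (3 * 59 * 5) = 7 ∧ N (3 * 59 * 7) = 5 := by
  refine ⟨by norm_num, ?_, ?_⟩
  · unfold N
    rw [show 3 * 59 * 5 = 885 by norm_num]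
    exact Pool.Agent.Q25.Crit885.card885
  · unfold N
    rw [show 3 * 59 * 7 = 1239 by norm_num]
    exact Pool.Agent.Q25.Crit885.card1239

end Pool.Agent.Results.MP_99db3a_nt.NotMonotone
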